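import Mathlib

/-!
# MP_fbb849_al: definitions
-/

set_option autoImplicit false

namespace Pool.Agent.UU4

/-- the group `UU_n(F_p)` of upper unitriangular matrices, as a submonoid of the matrix ring
(all its elements are invertible; only the multiplication matters here) -/
def UU (n p : ℕ) : Submonoid (Matrix (Fin n) (Fin n) (ZMod p)) where
  carrier := {A | (∀ i j, j < i → A i j = 0) ∧ ∀ i, A i i = 1}
  one_mem' := ⟨fun _ _ h => Matrix.one_apply_ne (ne_of_gt h), fun _ => Matrix.one_apply_eq _⟩
  mul_mem' := by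
    rintro A B ⟨hA1, hA2⟩ ⟨hB1, hB2⟩
    refine ⟨fun i j h => ?_, fun i => ?_⟩
    · rw [Matrix.mul_apply]
      refine Finset.sum_eq_zero fun k _ => ?_
      rcases lt_or_ge k i with hk | hk
      · rw [hA1 i k hk, zero_mul]
      · rw [hB1 k j (lt_of_lt_of_le h hk), mul_zero]
    · rw [Matrix.mul_apply, Finset.sum_eq_single i, hA2, hB2, mul_one]
      · intro k _ hk
        rcases lt_or_gt_of_ne hk with hk | hk
        · rw [hA1 i k hk, zero_mul]
        · rw [hB1 k i hk, mul_zero]
      · intro h
        exact absurd (Finset.mem_univ i) h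

/-- `omega(G)`: the largest size of a set of pairwise non-commuting elements -/
noncomputable def omega (G : Type) [Mul G] : ℕ :=
  sSup {k | ∃ S : Finset G, S.card = k ∧ ∀ x ∈ S, ∀ y ∈ S, x ≠ y → x * y ≠ y * x}

/-- the standard alternating form on `F_p^4` -/
def symp {p : ℕ} (u v : Fin 4 → ZMod p) : ZMod p :=
  u 0 * v 3 - u 3 * v 0 + u 1 * v 2 - u 2 * v 1

/-- the largest size of a partial ovoid of the symplectic generalized quadrangle `W(3,p)`:
a set of points of `PG(3,p)` (given by representative vectors) which are pairwise non-orthogonal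
for the standard alternating form -/
noncomputable def maxPartialOvoid (p : ℕ) : ℕ :=
  sSup {k | ∃ S : Finset (Fin 4 → ZMod p), S.card = k ∧ ∀ u ∈ S, ∀ v ∈ S, u ≠ v → symp u v ≠ 0}

/-- PORC for large primes: on each residue class modulo some `N`, the function agrees with a
rational polynomial at all large primes -/
def IsPORC (f : ℕ → ℕ) : Prop :=
  ∃ N : ℕ, 0 < N ∧ ∃ F : ℕ → Polynomial ℚ, ∃ p0 : ℕ, ∀ p : ℕ, p.Prime → p0 ≤ p →
    (f p : ℚ) = (F (p % N)).eval (p : ℚ)

end Pool.Agent.UU4
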