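import Pool.Agent.Lib.MP_fbb849_al.H83.Miss

/-!
# MP_fbb849_al: the non-commuting number of `UU_4(F_p)`
-/

set_option autoImplicit false

namespace Pool.Agent.UU4

open Finset

section

variable {p : ℕ} [hp : Fact p.Prime]

theorem bdd_omega (G : Type) [Mul G] [Finite G] :
    BddAbove {k | ∃ S : Finset G, S.card = k ∧ ∀ x ∈ S, ∀ y ∈ S, x ≠ y → x * y ≠ y * x} := by
  have := Fintype.ofFinite G
  refine ⟨Fintype.card G, ?_⟩
  rintro k ⟨S, rfl, _⟩
  exact card_le_univ S

theorem bdd_po :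
    BddAbove {k | ∃ S : Finset (Fin 4 → ZMod p), S.card = k ∧
      ∀ u ∈ S, ∀ v ∈ S, u ≠ v → symp u v ≠ 0} := by
  refine ⟨Fintype.card (Fin 4 → ZMod p), ?_⟩
  rintro k ⟨S, rfl, _⟩
  exact card_le_univ S

theorem le_maxPO {S : Finset (Fin 4 → ZMod p)} (hS : IsPO S) : S.card ≤ maxPartialOvoid p :=
  le_csSup bdd_po ⟨S, rfl, hS⟩

theorem exists_maxPO : ∃ S : Finset (Fin 4 → ZMod p), S.card = maxPartialOvoid p ∧ IsPO S := by
  have h : maxPartialOvoid p ∈ {k | ∃ S : Finset (Fin 4 → ZMod p), S.card = k ∧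
      ∀ u ∈ S, ∀ v ∈ S, u ≠ v → symp u v ≠ 0} :=
    Nat.sSup_mem ⟨0, ∅, rfl, by simp⟩ bdd_po
  exact h

theorem two_le_maxPO : 2 ≤ maxPartialOvoid p := by
  let e0 : Fin 4 → ZMod p := ![1, 0, 0, 0]
  let e3 : Fin 4 → ZMod p := ![0, 0, 0, 1]
  have hne : e0 ≠ e3 := by
    intro h
    have : (1 : ZMod p) = 0 := congrFun h 0
    exact one_ne_zero this
  have hs1 : symp e0 e3 = 1 := by
    show (1 : ZMod p) * 1 - 0 * 0 + 0 * 0 - 0 * 0 = 1
    ring
  have hs2 : symp e3 e0 = -1 := by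
    show (0 : ZMod p) * 0 - 1 * 1 + 0 * 0 - 0 * 0 = -1
    ring
  have hS : IsPO ({e0, e3} : Finset (Fin 4 → ZMod p)) := by
    intro u hu v hv huv
    rw [mem_insert, mem_singleton] at hu hv
    rcases hu with rfl | rfl <;> rcases hv with rfl | rfl
    · exact absurd rfl huv
    · rw [hs1]; exact one_ne_zero
    · rw [hs2]; exact neg_ne_zero.2 one_ne_zero
    · exact absurd rfl huv
  have := le_maxPO hS
  rwa [card_pair hne] at this

/-- an optimal partial ovoid which misses the line `u 0 = u 2 = 0` -/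
theorem exists_maxPO' (hp2 : p ≠ 2) : ∃ S : Finset (Fin 4 → ZMod p),
    S.card = maxPartialOvoid p ∧ IsPO S ∧ ∀ u ∈ S, u 0 ≠ 0 ∨ u 2 ≠ 0 := by
  obtain ⟨O, hOc, hO⟩ := exists_maxPO (p := p)
  have h0 : (0 : Fin 4 → ZMod p) ∉ O := by
    intro h0
    have h2 := two_le_maxPO (p := p)
    have h3 : 1 < O.card := by omega
    obtain ⟨a, ha, b, hb, hab⟩ := one_lt_card.1 h3
    by_cases ha0 : a = 0
    · apply hO a ha b hb hab
      rw [ha0]
      simp [symp]
    · apply hO 0 h0 a ha (Ne.symm ha0)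
      simp [symp]
  obtain ⟨M, hM⟩ := exists_miss hO h0 hp2
  let f : (Fin 4 → ZMod p) → (Fin 4 → ZMod p) := fun u =>
    ![u 0 - (M.1 * u 3 + M.2.1 * u 1), u 1, u 2 + (M.2.1 * u 3 + M.2.2 * u 1), u 3]
  have hf : ∀ u v, symp (f u) (f v) = symp u v := by
    intro u v
    show (u 0 - (M.1 * u 3 + M.2.1 * u 1)) * v 3 - u 3 * (v 0 - (M.1 * v 3 + M.2.1 * v 1)) +
      u 1 * (v 2 + (M.2.1 * v 3 + M.2.2 * v 1)) - (u 2 + (M.2.1 * u 3 + M.2.2 * u 1)) * v 1 = _
    unfold symp
    ring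
  have hinj : Function.Injective f := by
    intro u v h
    have a1 : u 1 = v 1 := congrFun h 1
    have a3 : u 3 = v 3 := congrFun h 3
    have a0 : u 0 - (M.1 * u 3 + M.2.1 * u 1) = v 0 - (M.1 * v 3 + M.2.1 * v 1) := congrFun h 0
    have a2 : u 2 + (M.2.1 * u 3 + M.2.2 * u 1) = v 2 + (M.2.1 * v 3 + M.2.2 * v 1) :=
      congrFun h 2
    rw [a1, a3] at a0 a2
    funext i
    fin_cases i
    · exact sub_left_inj.1 a0
    · exact a1
    · exact add_right_cancel a2
    · exact a3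
  refine ⟨O.image f, ?_, ?_, ?_⟩
  · rw [card_image_of_injective _ hinj, hOc]
  · intro u hu v hv huv
    obtain ⟨u', hu', rfl⟩ := mem_image.1 hu
    obtain ⟨v', hv', rfl⟩ := mem_image.1 hv
    rw [hf]
    exact hO u' hu' v' hv' fun h => huv (by rw [h])
  · intro u hu
    obtain ⟨w, hw, rfl⟩ := mem_image.1 hu
    by_contra hcon
    push Not at hcon
    obtain ⟨h1, h2⟩ := hcon
    apply hM w hw
    have h1' : w 0 - (M.1 * w 3 + M.2.1 * w 1) = 0 := h1
    have h2' : w 2 + (M.2.1 * w 3 + M.2.2 * w 1) = 0 := h2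
    exact ⟨sub_eq_zero.1 h1', by linear_combination -h2'⟩

/-- commutation in `UU_4(F_p)` -/
theorem comm_iff (A B : Matrix (Fin 4) (Fin 4) (ZMod p)) (hA : A ∈ UU 4 p) (hB : B ∈ UU 4 p) :
    A * B = B * A ↔ A 0 1 * B 1 2 = B 0 1 * A 1 2 ∧ A 1 2 * B 2 3 = B 1 2 * A 2 3 ∧
      A 0 1 * B 1 3 + A 0 2 * B 2 3 = B 0 1 * A 1 3 + B 0 2 * A 2 3 := by
  obtain ⟨hA1, hA2⟩ := hA
  obtain ⟨hB1, hB2⟩ := hB
  have a10 : A 1 0 = 0 := hA1 1 0 (by decide)
  have a20 : A 2 0 = 0 := hA1 2 0 (by decide)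
  have a30 : A 3 0 = 0 := hA1 3 0 (by decide)
  have a21 : A 2 1 = 0 := hA1 2 1 (by decide)
  have a31 : A 3 1 = 0 := hA1 3 1 (by decide)
  have a32 : A 3 2 = 0 := hA1 3 2 (by decide)
  have b10 : B 1 0 = 0 := hB1 1 0 (by decide)
  have b20 : B 2 0 = 0 := hB1 2 0 (by decide)
  have b30 : B 3 0 = 0 := hB1 3 0 (by decide)
  have b21 : B 2 1 = 0 := hB1 2 1 (by decide)
  have b31 : B 3 1 = 0 := hB1 3 1 (by decide)
  have b32 : B 3 2 = 0 := hB1 3 2 (by decide)
  have a00 := hA2 0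
  have a11 := hA2 1
  have a22 := hA2 2
  have a33 := hA2 3
  have b00 := hB2 0
  have b11 := hB2 1
  have b22 := hB2 2
  have b33 := hB2 3
  constructor
  · intro h
    have h02 := congrFun (congrFun h 0) 2
    have h13 := congrFun (congrFun h 1) 3
    have h03 := congrFun (congrFun h 0) 3
    simp only [Matrix.mul_apply, Fin.sum_univ_four, a10, a32, b10, b32, a00, a11, a22, a33, b00,
      b11, b22, b33] at h02 h13 h03
    refine ⟨?_, ?_, ?_⟩
    · linear_combination h02
    · linear_combination h13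
    · linear_combination h03
  · rintro ⟨h1, h2, h3⟩
    ext i j
    fin_cases i <;> fin_cases j <;>
      simp only [Matrix.mul_apply, Fin.sum_univ_four, Fin.zero_eta, Fin.mk_one, Fin.reduceFinMk,
        a10, a20, a30, a21, a31, a32, b10, b20, b30,
        b21, b31, b32, a00, a11, a22, a33, b00, b11, b22, b33] <;>
      first
        | ring1
        | linear_combination h1
        | linear_combination h2
        | linear_combination h3

/-- the number of classes of regular type -/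
theorem card_reg : ((univ : Finset (ZMod p × ZMod p × ZMod p)).filter
    fun w => ¬ (w.1 = 0 ∧ w.2.1 = 0)).card = p ^ 3 - p := by
  have h1 := card_filter_add_card_filter_not (s := (univ : Finset (ZMod p × ZMod p × ZMod p)))
    (fun w => w.1 = 0 ∧ w.2.1 = 0)
  have h2 : ((univ : Finset (ZMod p × ZMod p × ZMod p)).filter
      fun w => w.1 = 0 ∧ w.2.1 = 0).card = p := by
    have : (univ : Finset (ZMod p × ZMod p × ZMod p)).filter (fun w => w.1 = 0 ∧ w.2.1 = 0) =
        (univ : Finset (ZMod p)).image (fun s => (0, 0, s)) := by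
      ext w
      simp only [mem_filter, mem_univ, true_and, mem_image]
      constructor
      · rintro ⟨a, b⟩
        exact ⟨w.2.2, by rw [← a]; ext <;> simp [a, b]⟩
      · rintro ⟨s, rfl⟩
        exact ⟨rfl, rfl⟩
    rw [this, card_image_of_injective, card_univ, ZMod.card]
    intro x y h
    exact (Prod.ext_iff.1 (Prod.ext_iff.1 h).2).2
  rw [h2, card_univ, Fintype.card_prod, Fintype.card_prod, ZMod.card] at h1
  have h3 : p * (p * p) = p ^ 3 := by ring
  omega

/-- the symplectic vector of a matrix with vanishing middle entry -/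
def vec (A : Matrix (Fin 4) (Fin 4) (ZMod p)) : Fin 4 → ZMod p := ![A 0 1, A 0 2, A 2 3, A 1 3]

theorem symp_vec (A B : Matrix (Fin 4) (Fin 4) (ZMod p)) :
    symp (vec A) (vec B) = A 0 1 * B 1 3 + A 0 2 * B 2 3 - (B 0 1 * A 1 3 + B 0 2 * A 2 3) := by
  show A 0 1 * B 1 3 - A 1 3 * B 0 1 + A 0 2 * B 2 3 - A 2 3 * B 0 2 = _
  ring

/-- upper bound -/
theorem upper (S : Finset (UU 4 p)) (hS : ∀ x ∈ S, ∀ y ∈ S, x ≠ y → x * y ≠ y * x) :
    S.card ≤ p ^ 3 - p + 1 + maxPartialOvoid p := by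
  have hcomm : ∀ x y : UU 4 p, x * y = y * x ↔
      x.1 0 1 * y.1 1 2 = y.1 0 1 * x.1 1 2 ∧ x.1 1 2 * y.1 2 3 = y.1 1 2 * x.1 2 3 ∧
      x.1 0 1 * y.1 1 3 + x.1 0 2 * y.1 2 3 = y.1 0 1 * x.1 1 3 + y.1 0 2 * x.1 2 3 := by
    intro x y
    rw [← comm_iff x.1 y.1 x.2 y.2, Subtype.ext_iff]
    rfl
  -- the three parts
  have h3 : (S.filter fun x => x.1 1 2 = 0).card ≤ maxPartialOvoid p := by
    have hinj : Set.InjOn (fun x : UU 4 p => vec x.1) (S.filter fun x => x.1 1 2 = 0) := by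
      intro x hx y hy hxy
      by_contra hne
      have hx' := mem_filter.1 (mem_coe.1 hx)
      have hy' := mem_filter.1 (mem_coe.1 hy)
      apply hS x hx'.1 y hy'.1 hne
      have e : symp (vec x.1) (vec y.1) = 0 := by
        have : vec x.1 = vec y.1 := hxy
        rw [this, symp_vec]
        ring
      rw [symp_vec, sub_eq_zero] at e
      rw [hcomm, hx'.2, hy'.2]
      exact ⟨by ring, by ring, e⟩
    rw [← card_image_of_injOn hinj]
    apply le_maxPO
    intro u hu v hv huv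
    obtain ⟨x, hx, rfl⟩ := mem_image.1 hu
    obtain ⟨y, hy, rfl⟩ := mem_image.1 hv
    have hx' := mem_filter.1 hx
    have hy' := mem_filter.1 hy
    intro e
    apply hS x hx'.1 y hy'.1 (fun h => huv (by rw [h]))
    rw [symp_vec, sub_eq_zero] at e
    rw [hcomm, hx'.2, hy'.2]
    exact ⟨by ring, by ring, e⟩
  have h2 : (S.filter fun x => x.1 1 2 ≠ 0 ∧ (x.1 0 1 = 0 ∧ x.1 2 3 = 0)).card ≤ 1 := by
    rw [card_le_one]
    intro x hx y hy
    by_contra hne
    have hx' := mem_filter.1 hx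
    have hy' := mem_filter.1 hy
    apply hS x hx'.1 y hy'.1 hne
    rw [hcomm, hx'.2.2.1, hx'.2.2.2, hy'.2.2.1, hy'.2.2.2]
    exact ⟨by ring, by ring, by ring⟩
  have h1 : (S.filter fun x => x.1 1 2 ≠ 0 ∧ ¬ (x.1 0 1 = 0 ∧ x.1 2 3 = 0)).card ≤
      p ^ 3 - p := by
    rw [← card_reg (p := p)]
    refine card_le_card_of_injOn (fun x => (x.1 0 1 / x.1 1 2, x.1 2 3 / x.1 1 2,
      (x.1 0 1 * x.1 1 3 - x.1 2 3 * x.1 0 2) / (x.1 1 2 * x.1 1 2))) ?_ ?_
    · intro x hx
      have hx' := mem_filter.1 (mem_coe.1 hx)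
      refine mem_coe.2 (mem_filter.2 ⟨mem_univ _, ?_⟩)
      rintro ⟨e1, e2⟩
      apply hx'.2.2
      have e1' : x.1 0 1 / x.1 1 2 = 0 := e1
      have e2' : x.1 2 3 / x.1 1 2 = 0 := e2
      rw [div_eq_zero_iff] at e1' e2'
      exact ⟨e1'.resolve_right hx'.2.1, e2'.resolve_right hx'.2.1⟩
    · intro x hx y hy hxy
      by_contra hne
      have hx' := mem_filter.1 (mem_coe.1 hx)
      have hy' := mem_filter.1 (mem_coe.1 hy)
      have bx := hx'.2.1
      have by' := hy'.2.1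
      simp only [Prod.mk.injEq] at hxy
      obtain ⟨e1, e2, e3⟩ := hxy
      rw [div_eq_div_iff bx by'] at e1 e2
      rw [div_eq_div_iff (mul_ne_zero bx bx) (mul_ne_zero by' by')] at e3
      apply hS x hx'.1 y hy'.1 hne
      rw [hcomm]
      refine ⟨e1, by linear_combination -e2, ?_⟩
      -- multiply by `b b'`
      have hb : x.1 1 2 * y.1 1 2 ≠ 0 := mul_ne_zero bx by'
      apply mul_left_cancel₀ hb
      linear_combination (-1 : ZMod p) * e3 + (y.1 1 2 * x.1 1 3 + x.1 1 2 * y.1 1 3) * e1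
        - (y.1 1 2 * x.1 0 2 + x.1 1 2 * y.1 0 2) * e2
  have hsplit : S.card = (S.filter fun x => x.1 1 2 = 0).card +
      ((S.filter fun x => x.1 1 2 ≠ 0 ∧ (x.1 0 1 = 0 ∧ x.1 2 3 = 0)).card +
      (S.filter fun x => x.1 1 2 ≠ 0 ∧ ¬ (x.1 0 1 = 0 ∧ x.1 2 3 = 0)).card) := by
    rw [← card_filter_add_card_filter_not (s := S) (fun x => x.1 1 2 = 0)]
    congr 1
    rw [← card_filter_add_card_filter_not (s := S.filter fun x => ¬ x.1 1 2 = 0)
      (fun x => x.1 0 1 = 0 ∧ x.1 2 3 = 0), filter_filter, filter_filter]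
  omega

/-- the unitriangular matrix with the given entries -/
def mk (a b c d e : ZMod p) : UU 4 p :=
  ⟨!![1, a, d, 0; 0, 1, b, e; 0, 0, 1, c; 0, 0, 0, 1], by
    constructor
    · intro i j h
      fin_cases i <;> fin_cases j <;> first | rfl | exact absurd h (by decide)
    · intro i
      fin_cases i <;> rfl⟩

theorem mk_comm (a b c d e a' b' c' d' e' : ZMod p) :
    mk a b c d e * mk a' b' c' d' e' = mk a' b' c' d' e' * mk a b c d e ↔
      a * b' = a' * b ∧ b * c' = b' * c ∧ a * e' + d * c' = a' * e + d' * c := by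
  have h := comm_iff (mk a b c d e).1 (mk a' b' c' d' e').1 (mk a b c d e).2
    (mk a' b' c' d' e').2
  rw [Subtype.ext_iff]
  exact h

theorem mk_inj {a b c d e a' b' c' d' e' : ZMod p} (h : mk a b c d e = mk a' b' c' d' e') :
    a = a' ∧ b = b' ∧ c = c' ∧ d = d' ∧ e = e' := by
  have h1 : (mk a b c d e).1 = (mk a' b' c' d' e').1 := congrArg Subtype.val h
  exact ⟨congrFun (congrFun h1 0) 1, congrFun (congrFun h1 1) 2, congrFun (congrFun h1 2) 3,
    congrFun (congrFun h1 0) 2, congrFun (congrFun h1 1) 3⟩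

/-- representatives of the regular classes -/
noncomputable def rep (w : ZMod p × ZMod p × ZMod p) : UU 4 p :=
  if w.1 = 0 then mk 0 1 w.2.1 (-(w.2.2 / w.2.1)) 0 else mk w.1 1 w.2.1 0 (w.2.2 / w.1)

/-- lower bound -/
theorem lower (O : Finset (Fin 4 → ZMod p)) (hO : IsPO O) (hl : ∀ u ∈ O, u 0 ≠ 0 ∨ u 2 ≠ 0) :
    ∃ S : Finset (UU 4 p), S.card = p ^ 3 - p + 1 + O.card ∧
      ∀ x ∈ S, ∀ y ∈ S, x ≠ y → x * y ≠ y * x := by
  classical
  -- uniform description: entries of the members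
  let R : Finset (ZMod p × ZMod p × ZMod p) := univ.filter fun w => ¬ (w.1 = 0 ∧ w.2.1 = 0)
  let S1 : Finset (UU 4 p) := R.image rep
  let S2 : Finset (UU 4 p) := {mk 0 1 0 0 0}
  let S3 : Finset (UU 4 p) := O.image fun u => mk (u 0) 0 (u 2) (u 1) (u 3)
  have hrep : ∀ w ∈ R, ∃ d e : ZMod p, rep w = mk w.1 1 w.2.1 d e ∧
      w.1 * e - w.2.1 * d = w.2.2 := by
    intro w hw
    have hw' := (mem_filter.1 hw).2
    by_cases h : w.1 = 0
    · have h2 : w.2.1 ≠ 0 := fun h2 => hw' ⟨h, h2⟩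
      refine ⟨-(w.2.2 / w.2.1), 0, ?_, ?_⟩
      · rw [rep, if_pos h, h]
      · rw [h]
        field_simp
        ring
    · refine ⟨0, w.2.2 / w.1, ?_, ?_⟩
      · rw [rep, if_neg h]
      · field_simp
        ring
  have hinj1 : Set.InjOn rep (R : Set (ZMod p × ZMod p × ZMod p)) := by
    intro w hw w' hw' h
    obtain ⟨d, e, h1, h2⟩ := hrep w (mem_coe.1 hw)
    obtain ⟨d', e', h1', h2'⟩ := hrep w' (mem_coe.1 hw')
    rw [h1, h1'] at h
    obtain ⟨i1, _, i3, i4, i5⟩ := mk_inj h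
    ext
    · exact i1
    · exact i3
    · rw [← h2, ← h2', i1, i3, i4, i5]
  have hinj3 : Function.Injective (fun u : Fin 4 → ZMod p => mk (u 0) 0 (u 2) (u 1) (u 3)) := by
    intro u v h
    obtain ⟨i1, _, i3, i4, i5⟩ := mk_inj h
    funext i
    fin_cases i
    · exact i1
    · exact i4
    · exact i3
    · exact i5
  have hd12 : Disjoint S1 S2 := by
    rw [disjoint_left]
    intro x hx hx2
    obtain ⟨w, hw, rfl⟩ := mem_image.1 hx
    obtain ⟨d, e, h1, _⟩ := hrep w hw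
    rw [mem_singleton, h1] at hx2
    obtain ⟨i1, _, i3, _, _⟩ := mk_inj hx2
    exact (mem_filter.1 hw).2 ⟨i1, i3⟩
  have hd3 : Disjoint (S1 ∪ S2) S3 := by
    rw [disjoint_left]
    intro x hx hx3
    obtain ⟨u, _, rfl⟩ := mem_image.1 hx3
    rcases mem_union.1 hx with hx | hx
    · obtain ⟨w, hw, h⟩ := mem_image.1 hx
      obtain ⟨d, e, h1, _⟩ := hrep w hw
      rw [h1] at h
      exact one_ne_zero (mk_inj h).2.1
    · rw [mem_singleton] at hx
      exact one_ne_zero (mk_inj hx).2.1.symm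
  refine ⟨(S1 ∪ S2) ∪ S3, ?_, ?_⟩
  · rw [card_union_of_disjoint hd3, card_union_of_disjoint hd12, card_image_of_injOn hinj1,
      card_image_of_injective _ hinj3, card_reg, card_singleton]
  · -- non-commutation
    have c11 : ∀ x ∈ S1, ∀ y ∈ S1, x * y = y * x → x = y := by
      intro x hx y hy h
      obtain ⟨w, hw, rfl⟩ := mem_image.1 hx
      obtain ⟨w', hw', rfl⟩ := mem_image.1 hy
      obtain ⟨d, e, h1, h2⟩ := hrep w hw
      obtain ⟨d', e', h1', h2'⟩ := hrep w' hw'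
      rw [h1, h1', mk_comm] at h
      obtain ⟨i1, i2, i3⟩ := h
      congr 1
      have j1 : w.1 = w'.1 := by linear_combination i1
      have j2 : w.2.1 = w'.2.1 := by linear_combination -i2
      ext
      · exact j1
      · exact j2
      · rw [← h2, ← h2', ← j1, ← j2]
        rw [← j1, ← j2] at i3
        linear_combination -i3
    have c12 : ∀ x ∈ S1, ∀ y ∈ S2, x * y ≠ y * x := by
      intro x hx y hy h
      obtain ⟨w, hw, rfl⟩ := mem_image.1 hx
      obtain ⟨d, e, h1, h2⟩ := hrep w hw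
      rw [mem_singleton] at hy
      rw [h1, hy, mk_comm] at h
      obtain ⟨i1, i2, i3⟩ := h
      apply (mem_filter.1 hw).2
      exact ⟨by linear_combination i1, by linear_combination -i2⟩
    have c13 : ∀ x ∈ S1, ∀ y ∈ S3, x * y ≠ y * x := by
      intro x hx y hy h
      obtain ⟨w, hw, rfl⟩ := mem_image.1 hx
      obtain ⟨d, e, h1, h2⟩ := hrep w hw
      obtain ⟨u, hu, rfl⟩ := mem_image.1 hy
      rw [h1, mk_comm] at h
      obtain ⟨i1, i2, i3⟩ := h
      rcases hl u hu with h0 | h0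
      · apply h0; linear_combination -i1
      · apply h0; linear_combination i2
    have c23 : ∀ x ∈ S2, ∀ y ∈ S3, x * y ≠ y * x := by
      intro x hx y hy h
      obtain ⟨u, hu, rfl⟩ := mem_image.1 hy
      rw [mem_singleton] at hx
      rw [hx, mk_comm] at h
      obtain ⟨i1, i2, i3⟩ := h
      rcases hl u hu with h0 | h0
      · apply h0; linear_combination -i1
      · apply h0; linear_combination i2
    have c33 : ∀ x ∈ S3, ∀ y ∈ S3, x * y = y * x → x = y := by
      intro x hx y hy h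
      obtain ⟨u, hu, rfl⟩ := mem_image.1 hx
      obtain ⟨v, hv, rfl⟩ := mem_image.1 hy
      rw [mk_comm] at h
      by_contra hne
      apply hO u hu v hv (fun h' => hne (by rw [h']))
      unfold symp
      linear_combination h.2.2
    intro x hx y hy hne h
    rcases mem_union.1 hx with hx | hx
    · rcases mem_union.1 hx with hx | hx
      · rcases mem_union.1 hy with hy | hy
        · rcases mem_union.1 hy with hy | hy
          · exact hne (c11 x hx y hy h)
          · exact c12 x hx y hy h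
        · exact c13 x hx y hy h
      · rcases mem_union.1 hy with hy | hy
        · rcases mem_union.1 hy with hy | hy
          · exact c12 y hy x hx h.symm
          · exact hne ((mem_singleton.1 hx).trans (mem_singleton.1 hy).symm)
        · exact c23 x hx y hy h
    · rcases mem_union.1 hy with hy | hy
      · rcases mem_union.1 hy with hy | hy
        · exact c13 y hy x hx h.symm
        · exact c23 y hy x hx h.symm
      · exact hne (c33 x hx y hy h)

theorem omega_UU4 (hp2 : p ≠ 2) : omega (UU 4 p) = p ^ 3 - p + 1 + maxPartialOvoid p := by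
  have : Finite (UU 4 p) := inferInstance
  apply le_antisymm
  · apply csSup_le'
    rintro k ⟨S, rfl, hS⟩
    exact upper S hS
  · obtain ⟨O, hOc, hO, hl⟩ := exists_maxPO' (p := p) hp2
    obtain ⟨S, hSc, hS⟩ := lower O hO hl
    rw [← hOc]
    exact le_csSup (bdd_omega _) ⟨S, hSc, hS⟩

end

end Pool.Agent.UU4
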