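import Pool.Agent.Lib.MP_fbb849_al.H83.Defs

/-!
# MP_fbb849_al: partial ovoids of W(3,p), p odd, miss a totally isotropic line
-/

set_option autoImplicit false

namespace Pool.Agent.UU4

open Finset

/-- pairwise non-orthogonal sets of vectors -/
def IsPO {p : ℕ} (S : Finset (Fin 4 → ZMod p)) : Prop :=
  ∀ u ∈ S, ∀ v ∈ S, u ≠ v → symp u v ≠ 0

section

variable {p : ℕ} [hp : Fact p.Prime]

/-- the vector `u` lies on the Lagrangian plane `L_M` -/
def Inc (M : ZMod p × ZMod p × ZMod p) (u : Fin 4 → ZMod p) : Prop :=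
  u 0 = M.1 * u 3 + M.2.1 * u 1 ∧ -u 2 = M.2.1 * u 3 + M.2.2 * u 1

instance (M : ZMod p × ZMod p × ZMod p) (u : Fin 4 → ZMod p) : Decidable (Inc M u) := by
  unfold Inc; infer_instance

/-- the matrices with `y + t z = v` -/
def Lay (t v : ZMod p) : Finset (ZMod p × ZMod p × ZMod p) :=
  univ.filter fun M => M.2.1 + t * M.2.2 = v

theorem mem_lay_inc (t v : ZMod p) (u : Fin 4 → ZMod p) (M : ZMod p × ZMod p × ZMod p) :
    M ∈ (Lay t v).filter (fun M => Inc M u) ↔ M.2.1 + t * M.2.2 = v ∧
      u 0 = M.1 * u 3 + M.2.1 * u 1 ∧ -u 2 = M.2.1 * u 3 + M.2.2 * u 1 := by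
  rw [mem_filter, Lay, mem_filter]
  exact ⟨fun h => ⟨h.1.2, h.2⟩, fun h => ⟨⟨mem_univ _, h.1⟩, h.2⟩⟩

theorem card_lay (t v : ZMod p) : (Lay t v).card = p ^ 2 := by
  have h : Lay t v = (univ : Finset (ZMod p × ZMod p)).image
      (fun w => (w.1, v - t * w.2, w.2)) := by
    ext M
    simp only [Lay, mem_filter, mem_univ, true_and, mem_image, Prod.exists]
    constructor
    · intro h
      refine ⟨M.1, M.2.2, ?_⟩
      ext
      · rfl
      · show v - t * M.2.2 = M.2.1
        rw [← h]; ring
      · rfl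
    · rintro ⟨a, b, h⟩
      rw [← h]
      show v - t * b + t * b = v
      ring
  rw [h, card_image_of_injective]
  · rw [card_univ, Fintype.card_prod, ZMod.card]
    ring
  · rintro ⟨a, b⟩ ⟨a', b'⟩ h
    simp only [Prod.mk.injEq] at h
    exact Prod.ext h.1 h.2.2

theorem inc_unique {O : Finset (Fin 4 → ZMod p)} (hO : IsPO O) {M : ZMod p × ZMod p × ZMod p}
    {u v : Fin 4 → ZMod p} (hu : u ∈ O) (hv : v ∈ O) (h1 : Inc M u) (h2 : Inc M v) : u = v := by
  by_contra hne
  apply hO u hu v hv hne
  unfold symp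
  obtain ⟨a1, a2⟩ := h1
  obtain ⟨b1, b2⟩ := h2
  have a2' : u 2 = -(M.2.1 * u 3 + M.2.2 * u 1) := by rw [← a2]; ring
  have b2' : v 2 = -(M.2.1 * v 3 + M.2.2 * v 1) := by rw [← b2]; ring
  rw [a1, b1, a2', b2']
  ring

/-- the layer count for a vector of direction at infinity -/
theorem cnt_inf (t v : ZMod p) (u : Fin 4 → ZMod p) (h3 : u 3 = 0) (h1 : u 1 ≠ 0) :
    ((Lay t v).filter fun M => Inc M u).card = if u 0 - t * u 2 = v * u 1 then p else 0 := by
  split_ifs with h
  · have : (Lay t v).filter (fun M => Inc M u) =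
        (univ : Finset (ZMod p)).image (fun x => (x, u 0 / u 1, -u 2 / u 1)) := by
      ext M
      rw [mem_lay_inc]
      simp only [mem_univ, true_and, mem_image, h3, mul_zero, zero_add]
      constructor
      · rintro ⟨ha, hb, hc⟩
        refine ⟨M.1, ?_⟩
        ext
        · rfl
        · show u 0 / u 1 = M.2.1
          rw [hb]; field_simp
        · show -u 2 / u 1 = M.2.2
          rw [hc]; field_simp
      · rintro ⟨x, hx⟩
        rw [← hx]
        refine ⟨?_, ?_, ?_⟩
        · show u 0 / u 1 + t * (-u 2 / u 1) = v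
          field_simp
          linear_combination h
        · show u 0 = u 0 / u 1 * u 1
          field_simp
        · show -u 2 = -u 2 / u 1 * u 1
          field_simp
    rw [this, card_image_of_injective, card_univ, ZMod.card]
    intro x y hxy
    exact (Prod.ext_iff.1 hxy).1
  · rw [card_eq_zero, filter_eq_empty_iff]
    intro M hM hI
    apply h
    simp only [Lay, mem_filter, mem_univ, true_and] at hM
    obtain ⟨a1, a2⟩ := hI
    rw [h3] at a1 a2
    rw [← hM]
    linear_combination a1 + t * a2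

/-- the layer count for a vector of direction `t` -/
theorem cnt_t (t v : ZMod p) (u : Fin 4 → ZMod p) (h3 : u 3 ≠ 0) (h1 : u 1 = t * u 3) :
    ((Lay t v).filter fun M => Inc M u).card = if -u 2 = v * u 3 then p else 0 := by
  split_ifs with h
  · have : (Lay t v).filter (fun M => Inc M u) =
        (univ : Finset (ZMod p)).image (fun z => (u 0 / u 3 - t * (v - t * z), v - t * z, z)) := by
      ext M
      rw [mem_lay_inc]
      simp only [mem_univ, true_and, mem_image]
      constructor
      · rintro ⟨ha, hb, hc⟩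
        refine ⟨M.2.2, ?_⟩
        have hy : v - t * M.2.2 = M.2.1 := by rw [← ha]; ring
        rw [hy]
        ext
        · show u 0 / u 3 - t * M.2.1 = M.1
          rw [hb, h1]
          field_simp
          ring
        · rfl
        · rfl
      · rintro ⟨z, hz⟩
        rw [← hz]
        refine ⟨?_, ?_, ?_⟩
        · show v - t * z + t * z = v
          ring
        · show u 0 = (u 0 / u 3 - t * (v - t * z)) * u 3 + (v - t * z) * u 1
          rw [h1]
          field_simp
          ring
        · show -u 2 = (v - t * z) * u 3 + z * u 1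
          rw [h, h1]
          ring
    rw [this, card_image_of_injective, card_univ, ZMod.card]
    intro x y hxy
    exact (Prod.ext_iff.1 (Prod.ext_iff.1 hxy).2).2
  · rw [card_eq_zero, filter_eq_empty_iff]
    intro M hM hI
    apply h
    simp only [Lay, mem_filter, mem_univ, true_and] at hM
    obtain ⟨a1, a2⟩ := hI
    rw [a2, h1, ← hM]
    ring

/-- the layer count for all other vectors -/
theorem cnt_other (t v : ZMod p) (u : Fin 4 → ZMod p) (h3 : u 3 ≠ 0) (h1 : u 1 ≠ t * u 3) :
    ((Lay t v).filter fun M => Inc M u).card = 1 := by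
  have hd : u 1 - t * u 3 ≠ 0 := sub_ne_zero.2 h1
  rw [card_eq_one]
  let z : ZMod p := (-u 2 - v * u 3) / (u 1 - t * u 3)
  let y : ZMod p := v - t * z
  let x : ZMod p := (u 0 - y * u 1) / u 3
  have hz : z * (u 1 - t * u 3) = -u 2 - v * u 3 := div_mul_cancel₀ _ hd
  have hx : x * u 3 = u 0 - y * u 1 := div_mul_cancel₀ _ h3
  refine ⟨(x, y, z), ?_⟩
  ext M
  rw [mem_lay_inc, mem_singleton]
  constructor
  · rintro ⟨ha, hb, hc⟩
    have e1 : M.2.2 = z := by
      apply mul_right_cancel₀ hd
      rw [hz, hc, ← ha]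
      ring
    have e2 : M.2.1 = y := by
      show M.2.1 = v - t * z
      rw [← e1, ← ha]; ring
    have e3 : M.1 = x := by
      apply mul_right_cancel₀ h3
      rw [hx, ← e2, hb]
      ring
    ext
    · exact e3
    · exact e2
    · exact e1
  · intro h
    rw [h]
    refine ⟨?_, ?_, ?_⟩
    · show v - t * z + t * z = v
      ring
    · show u 0 = x * u 3 + y * u 1
      rw [hx]; ring
    · show -u 2 = y * u 3 + z * u 1
      have : y * u 3 + z * u 1 = v * u 3 + z * (u 1 - t * u 3) := by
        show (v - t * z) * u 3 + z * u 1 = _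
        ring
      rw [this, hz]
      ring

/-- every `L_M` is hit -/
def AllHit (O : Finset (Fin 4 → ZMod p)) : Prop :=
  ∀ M : ZMod p × ZMod p × ZMod p, ∃ u ∈ O, Inc M u

/-- vectors of direction infinity -/
def Iinf (O : Finset (Fin 4 → ZMod p)) : Finset (Fin 4 → ZMod p) :=
  O.filter fun u => u 3 = 0 ∧ u 1 ≠ 0

/-- vectors of direction `t` -/
def It (O : Finset (Fin 4 → ZMod p)) (t : ZMod p) : Finset (Fin 4 → ZMod p) :=
  O.filter fun u => u 3 ≠ 0 ∧ u 1 = t * u 3

/-- the remaining vectors -/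
def Ro (O : Finset (Fin 4 → ZMod p)) (t : ZMod p) : Finset (Fin 4 → ZMod p) :=
  O.filter fun u => u 3 ≠ 0 ∧ u 1 ≠ t * u 3

theorem layer_eq {O : Finset (Fin 4 → ZMod p)} (hO : IsPO O) (h0 : (0 : Fin 4 → ZMod p) ∉ O)
    (hA : AllHit O) (t v : ZMod p) :
    p ^ 2 = p * ((Iinf O).filter fun u => u 0 - t * u 2 = v * u 1).card +
      p * ((It O t).filter fun u => -u 2 = v * u 3).card + (Ro O t).card := by
  have h1 : ∑ u ∈ O, ((Lay t v).filter fun M => Inc M u).card = (Lay t v).card := by
    have e1 : ∀ u ∈ O, ((Lay t v).filter fun M => Inc M u).card =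
        ∑ M ∈ Lay t v, if Inc M u then 1 else 0 := by
      intro u _
      rw [card_filter]
    rw [sum_congr rfl e1, sum_comm, card_eq_sum_ones]
    refine sum_congr rfl fun M _ => ?_
    rw [← card_filter, card_eq_one]
    obtain ⟨u, hu, hI⟩ := hA M
    refine ⟨u, ?_⟩
    ext w
    rw [mem_filter, mem_singleton]
    constructor
    · rintro ⟨hw, hIw⟩
      exact inc_unique hO hw hu hIw hI
    · rintro rfl
      exact ⟨hu, hI⟩
  rw [card_lay] at h1
  rw [← h1]
  have e2 : ∀ u ∈ O, ((Lay t v).filter fun M => Inc M u).card =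
      (if (u 3 = 0 ∧ u 1 ≠ 0) ∧ u 0 - t * u 2 = v * u 1 then p else 0) +
      (if (u 3 ≠ 0 ∧ u 1 = t * u 3) ∧ -u 2 = v * u 3 then p else 0) +
      (if u 3 ≠ 0 ∧ u 1 ≠ t * u 3 then 1 else 0) := by
    intro u hu
    by_cases h3 : u 3 = 0
    · by_cases h1 : u 1 = 0
      · have hz : ((Lay t v).filter fun M => Inc M u).card = 0 := by
          rw [card_eq_zero, filter_eq_empty_iff]
          intro M _ hI
          apply h0
          obtain ⟨a1, a2⟩ := hI
          rw [h3, h1] at a1 a2
          have a1' : u 0 = 0 := by rw [a1]; ring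
          have a2' : u 2 = 0 := by
            have : -u 2 = 0 := by rw [a2]; ring
            exact neg_eq_zero.1 this
          have : u = 0 := by
            funext i
            fin_cases i
            · exact a1'
            · exact h1
            · exact a2'
            · exact h3
          rwa [this] at hu
        rw [hz]
        simp [h3, h1]
      · rw [cnt_inf t v u h3 h1]
        simp [h3, h1]
    · by_cases h1 : u 1 = t * u 3
      · rw [cnt_t t v u h3 h1]
        simp [h3, h1]
      · rw [cnt_other t v u h3 h1]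
        simp [h3, h1]
  rw [sum_congr rfl e2, sum_add_distrib, sum_add_distrib]
  have c1 : ∑ u ∈ O, (if (u 3 = 0 ∧ u 1 ≠ 0) ∧ u 0 - t * u 2 = v * u 1 then p else 0) =
      p * ((Iinf O).filter fun u => u 0 - t * u 2 = v * u 1).card := by
    rw [← sum_filter, sum_const, Iinf, filter_filter, smul_eq_mul, mul_comm]
  have c2 : ∑ u ∈ O, (if (u 3 ≠ 0 ∧ u 1 = t * u 3) ∧ -u 2 = v * u 3 then p else 0) =
      p * ((It O t).filter fun u => -u 2 = v * u 3).card := by
    rw [← sum_filter, sum_const, It, filter_filter, smul_eq_mul, mul_comm]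
  have c3 : ∑ u ∈ O, (if u 3 ≠ 0 ∧ u 1 ≠ t * u 3 then 1 else 0) = (Ro O t).card := by
    rw [← card_filter]
    rfl
  rw [c1, c2, c3]

theorem sum_A (O : Finset (Fin 4 → ZMod p)) (t : ZMod p) :
    ∑ v : ZMod p, ((Iinf O).filter fun u => u 0 - t * u 2 = v * u 1).card = (Iinf O).card := by
  rw [card_eq_sum_card_fiberwise (f := fun u => (u 0 - t * u 2) / u 1) (t := univ)
    (fun _ _ => mem_univ _)]
  refine sum_congr rfl fun v _ => ?_
  congr 1
  refine filter_congr fun u hu => ?_
  have h1 : u 1 ≠ 0 := (mem_filter.1 hu).2.2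
  rw [div_eq_iff h1]

theorem sum_B (O : Finset (Fin 4 → ZMod p)) (t : ZMod p) :
    ∑ v : ZMod p, ((It O t).filter fun u => -u 2 = v * u 3).card = (It O t).card := by
  rw [card_eq_sum_card_fiberwise (f := fun u => (-u 2) / u 3) (t := univ)
    (fun _ _ => mem_univ _)]
  refine sum_congr rfl fun v _ => ?_
  congr 1
  refine filter_congr fun u hu => ?_
  have h3 : u 3 ≠ 0 := (mem_filter.1 hu).2.1
  rw [div_eq_iff h3]

theorem card_Iinf_le {O : Finset (Fin 4 → ZMod p)} (hO : IsPO O) : (Iinf O).card ≤ p := by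
  have h : (Iinf O).card ≤ (univ : Finset (ZMod p)).card := by
    refine card_le_card_of_injOn (fun u => u 2 / u 1) (fun _ _ => mem_univ _) ?_
    intro u hu v hv huv
    have hu' := mem_filter.1 (mem_coe.1 hu)
    have hv' := mem_filter.1 (mem_coe.1 hv)
    by_contra hne
    apply hO u hu'.1 v hv'.1 hne
    have e : u 2 * v 1 = v 2 * u 1 := (div_eq_div_iff hu'.2.2 hv'.2.2).1 huv
    unfold symp
    rw [hu'.2.1, hv'.2.1]
    linear_combination -e
  rwa [card_univ, ZMod.card] at h

theorem card_It_le {O : Finset (Fin 4 → ZMod p)} (hO : IsPO O) (t : ZMod p) :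
    (It O t).card ≤ p := by
  have h : (It O t).card ≤ (univ : Finset (ZMod p)).card := by
    refine card_le_card_of_injOn (fun u => (u 0 - t * u 2) / u 3) (fun _ _ => mem_univ _) ?_
    intro u hu v hv huv
    have hu' := mem_filter.1 (mem_coe.1 hu)
    have hv' := mem_filter.1 (mem_coe.1 hv)
    by_contra hne
    apply hO u hu'.1 v hv'.1 hne
    have e : (u 0 - t * u 2) * v 3 = (v 0 - t * v 2) * u 3 :=
      (div_eq_div_iff hu'.2.1 hv'.2.1).1 huv
    unfold symp
    rw [hu'.2.2, hv'.2.2]
    linear_combination e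
  rwa [card_univ, ZMod.card] at h

theorem disj {O : Finset (Fin 4 → ZMod p)} (hO : IsPO O) (t v : ZMod p)
    (hA : 0 < ((Iinf O).filter fun u => u 0 - t * u 2 = v * u 1).card) :
    ((It O t).filter fun u => -u 2 = v * u 3).card = 0 := by
  obtain ⟨u, hu⟩ := card_pos.1 hA
  rw [card_eq_zero, filter_eq_empty_iff]
  intro w hw hv
  have hu1 := mem_filter.1 hu
  have hu2 := mem_filter.1 hu1.1
  have hw2 := mem_filter.1 hw
  have hne : u ≠ w := by
    rintro rfl
    exact hw2.2.1 hu2.2.1
  apply hO u hu2.1 w hw2.1 hne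
  unfold symp
  rw [hu2.2.1, hw2.2.2]
  have e1 := hu1.2
  linear_combination w 3 * e1 - u 1 * hv

/-- direction infinity and direction `t` together carry at most `p` points -/
theorem pair_le {O : Finset (Fin 4 → ZMod p)} (hO : IsPO O) (h0 : (0 : Fin 4 → ZMod p) ∉ O)
    (hA : AllHit O) (hp2 : p ≠ 2) (t : ZMod p) : (Iinf O).card + (It O t).card ≤ p := by
  set A : ZMod p → ℕ := fun v => ((Iinf O).filter fun u => u 0 - t * u 2 = v * u 1).card with hAdef
  set B : ZMod p → ℕ := fun v => ((It O t).filter fun u => -u 2 = v * u 3).card with hBdef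
  have hpos : 0 < p := hp.out.pos
  have hl : ∀ v, p ^ 2 = p * A v + p * B v + (Ro O t).card := layer_eq hO h0 hA t
  set K := A 0 + B 0 with hK
  have hconst : ∀ v, A v + B v = K := by
    intro v
    have h1 := hl v
    have h2 := hl 0
    have h3 : p * (A v + B v) = p * (A 0 + B 0) := by
      rw [mul_add, mul_add]
      omega
    exact Nat.eq_of_mul_eq_mul_left hpos h3
  have hsum : (Iinf O).card + (It O t).card = p * K := by
    rw [← sum_A O t, ← sum_B O t, ← sum_add_distrib]
    rw [sum_congr rfl fun v _ => hconst v, sum_const, card_univ, ZMod.card, smul_eq_mul]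
  by_contra hlt
  have hi := card_Iinf_le hO
  have ht := card_It_le hO t
  have hK2 : K = 2 := by
    have h1 : p * K ≤ p * 2 := by omega
    have h2 : K ≤ 2 := Nat.le_of_mul_le_mul_left h1 hpos
    have h3 : ¬ K ≤ 1 := by
      intro h
      have : p * K ≤ p * 1 := Nat.mul_le_mul_left p h
      omega
    omega
  have hcard : (Iinf O).card = p := by
    rw [hK2] at hsum
    omega
  have heven : ∀ v, Even (A v) := by
    intro v
    rcases Nat.eq_zero_or_pos (A v) with h | h
    · rw [h]; exact Even.zero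
    · have hB : B v = 0 := disj hO t v h
      have := hconst v
      rw [hB, hK2] at this
      have : A v = 2 := by omega
      rw [this]
      exact even_two
  have hpe : Even p := by
    rw [← hcard, ← sum_A O t]
    exact Finset.even_sum _ fun v _ => heven v
  exact hp2 ((hp.out.even_iff).1 hpe)

theorem total {O : Finset (Fin 4 → ZMod p)} (hO : IsPO O) (h0 : (0 : Fin 4 → ZMod p) ∉ O)
    (hA : AllHit O) :
    (Iinf O).card + ∑ t : ZMod p, (It O t).card = p ^ 2 := by
  -- the equation for `t = 0` summed over the layers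
  have hpos : 0 < p := hp.out.pos
  have h1 : p * p ^ 2 = p * ((Iinf O).card + (It O 0).card + (Ro O 0).card) := by
    have : ∑ v : ZMod p, p ^ 2 = ∑ v : ZMod p,
        (p * ((Iinf O).filter fun u => u 0 - 0 * u 2 = v * u 1).card +
        p * ((It O 0).filter fun u => -u 2 = v * u 3).card + (Ro O 0).card) :=
      sum_congr rfl fun v _ => layer_eq hO h0 hA 0 v
    rw [sum_add_distrib, sum_add_distrib, ← mul_sum, ← mul_sum, sum_A, sum_B, sum_const,
      sum_const, card_univ, ZMod.card, smul_eq_mul, smul_eq_mul] at this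
    rw [this]
    ring
  have h2 : p ^ 2 = (Iinf O).card + (It O 0).card + (Ro O 0).card :=
    Nat.eq_of_mul_eq_mul_left hpos h1
  rw [h2]
  have h3 : ∑ t : ZMod p, (It O t).card = (O.filter fun u => u 3 ≠ 0).card := by
    rw [card_eq_sum_card_fiberwise (f := fun u => u 1 / u 3) (t := univ)
      (fun _ _ => mem_univ _)]
    refine sum_congr rfl fun t _ => ?_
    rw [It, filter_filter]
    congr 1
    refine filter_congr fun u _ => ?_
    constructor
    · rintro ⟨h, h'⟩
      exact ⟨h, by rw [div_eq_iff h]; exact h'⟩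
    · rintro ⟨h, h'⟩
      exact ⟨h, by rwa [div_eq_iff h] at h'⟩
  have h4 : (O.filter fun u => u 3 ≠ 0).card = (It O 0).card + (Ro O 0).card := by
    rw [← card_filter_add_card_filter_not (s := O.filter fun u => u 3 ≠ 0)
      (fun u => u 1 = 0 * u 3), filter_filter, filter_filter]
    rfl
  rw [h3, h4]
  ring

theorem Iinf_zero {O : Finset (Fin 4 → ZMod p)} (hO : IsPO O) (h0 : (0 : Fin 4 → ZMod p) ∉ O)
    (hA : AllHit O) (hp2 : p ≠ 2) : (Iinf O).card = 0 := by
  have h1 := total hO h0 hA
  have h2 : ∑ t : ZMod p, ((Iinf O).card + (It O t).card) ≤ ∑ t : ZMod p, p :=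
    sum_le_sum fun t _ => pair_le hO h0 hA hp2 t
  rw [sum_add_distrib, sum_const, sum_const, card_univ, ZMod.card, smul_eq_mul, smul_eq_mul] at h2
  have h3 := hp.out.two_le
  by_contra h
  have h4 : 1 ≤ (Iinf O).card := Nat.one_le_iff_ne_zero.2 h
  have h5 : 2 * (Iinf O).card ≤ p * (Iinf O).card := Nat.mul_le_mul_right _ h3
  have h6 : p * p = p ^ 2 := by ring
  omega

/-- the exchange of the two coordinates of the momentum plane -/
def swp (u : Fin 4 → ZMod p) : Fin 4 → ZMod p := ![-u 2, u 3, -u 0, u 1]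

theorem swp_swp (u : Fin 4 → ZMod p) : swp (swp u) = u := by
  funext i
  fin_cases i
  · show - -u 0 = u 0
    ring
  · rfl
  · show - -u 2 = u 2
    ring
  · rfl

theorem symp_swp (u v : Fin 4 → ZMod p) : symp (swp u) (swp v) = symp u v := by
  show -u 2 * v 1 - u 1 * -v 2 + u 3 * -v 0 - -u 0 * v 3 = _
  unfold symp
  ring

theorem exists_miss {O : Finset (Fin 4 → ZMod p)} (hO : IsPO O)
    (h0 : (0 : Fin 4 → ZMod p) ∉ O) (hp2 : p ≠ 2) :
    ∃ M : ZMod p × ZMod p × ZMod p, ∀ u ∈ O, ¬ Inc M u := by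
  by_contra hcon
  push Not at hcon
  have hA : AllHit O := hcon
  have hz := Iinf_zero hO h0 hA hp2
  have htot := total hO h0 hA
  have hpos : 0 < p := hp.out.pos
  have hI0 : (It O 0).card = p := by
    by_contra hne
    have hlt : (It O 0).card < p := lt_of_le_of_ne (card_It_le hO 0) hne
    have : ∑ t : ZMod p, (It O t).card < ∑ t : ZMod p, p :=
      sum_lt_sum (fun t _ => card_It_le hO t) ⟨0, mem_univ _, hlt⟩
    rw [sum_const, card_univ, ZMod.card, smul_eq_mul] at this
    rw [hz] at htot
    have h6 : p * p = p ^ 2 := by ring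
    omega
  -- exchange
  let O' := O.image swp
  have hinj : Function.Injective (swp : (Fin 4 → ZMod p) → _) :=
    Function.LeftInverse.injective swp_swp
  have hO' : IsPO O' := by
    intro u hu v hv huv
    obtain ⟨u', hu', rfl⟩ := mem_image.1 hu
    obtain ⟨v', hv', rfl⟩ := mem_image.1 hv
    rw [symp_swp]
    exact hO u' hu' v' hv' fun h => huv (by rw [h])
  have h0' : (0 : Fin 4 → ZMod p) ∉ O' := by
    intro h
    obtain ⟨u, hu, hu0⟩ := mem_image.1 h
    have : u = 0 := by
      rw [← swp_swp u, hu0]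
      funext i
      fin_cases i <;> simp [swp]
    rw [this] at hu
    exact h0 hu
  have hA' : AllHit O' := by
    intro M
    obtain ⟨u, hu, h1, h2⟩ := hA (M.2.2, M.2.1, M.1)
    refine ⟨swp u, mem_image_of_mem _ hu, ?_, ?_⟩
    · show -u 2 = M.1 * u 1 + M.2.1 * u 3
      have h2' : -u 2 = M.2.1 * u 3 + M.1 * u 1 := h2
      rw [h2']; ring
    · show - -u 0 = M.2.1 * u 1 + M.2.2 * u 3
      have h1' : u 0 = M.2.2 * u 3 + M.2.1 * u 1 := h1
      rw [neg_neg, h1']; ring
  have hz' := Iinf_zero hO' h0' hA' hp2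
  have hle : (It O 0).card ≤ (Iinf O').card := by
    refine card_le_card_of_injOn swp ?_ hinj.injOn
    intro u hu
    have hu' := mem_filter.1 (mem_coe.1 hu)
    refine mem_coe.2 (mem_filter.2 ⟨mem_image_of_mem _ hu'.1, ?_, ?_⟩)
    · show u 1 = 0
      rw [hu'.2.2, zero_mul]
    · show u 3 ≠ 0
      exact hu'.2.1
  omega

end

end Pool.Agent.UU4
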