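import Pool.Agent.Lib.MP_fbb849_al.H83.Sparse

/-!
# MP_fbb849_al: if `p ↦ omega(UU_4(F_p))` is PORC, then `W(3,p)` has dense partial ovoids
-/

set_option autoImplicit false

namespace Pool.Agent.UU4

open Finset Polynomial Filter

/-- a real polynomial which is at least `K n` at infinitely many integers `n`, for every `K`,
is at least `δ n ^ 2` at all large integers `n`, for some `δ > 0` -/
theorem poly_quad (g : ℝ[X])
    (hs : ∀ K : ℕ, ∃ᶠ n : ℕ in atTop, (K : ℝ) * n ≤ g.eval (n : ℝ)) :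
    ∃ δ : ℝ, 0 < δ ∧ ∀ᶠ n : ℕ in atTop, δ * (n : ℝ) ^ 2 ≤ g.eval (n : ℝ) := by
  have hcast : Tendsto (fun n : ℕ => (n : ℝ)) atTop atTop := tendsto_natCast_atTop_atTop
  rcases Nat.lt_or_ge g.natDegree 2 with hd | hd
  · exfalso
    obtain ⟨K, hK⟩ := exists_nat_gt (|g.coeff 1| + |g.coeff 0|)
    obtain ⟨n, ⟨hn, hn1⟩⟩ := ((hs K).and_eventually (eventually_ge_atTop 1)).exists
    have hn1' : (1 : ℝ) ≤ n := by exact_mod_cast hn1
    have heval : g.eval (n : ℝ) = g.coeff 0 + g.coeff 1 * n := by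
      rw [Polynomial.eval_eq_sum_range' hd, Finset.sum_range_succ, Finset.sum_range_one]
      simp
    rw [heval] at hn
    have h1 := le_abs_self (g.coeff 0)
    have h2 := le_abs_self (g.coeff 1)
    have h3 := abs_nonneg (g.coeff 0)
    nlinarith
  · obtain ⟨φ, hφ, hev⟩ := (Polynomial.isEquivalent_atTop_lead g).exists_eq_mul
    have hne : g.leadingCoeff ≠ 0 := by
      rw [Polynomial.leadingCoeff_ne_zero]
      rintro rfl
      simp at hd
    have h12 : ∀ᶠ x : ℝ in atTop, (1 / 2 : ℝ) < φ x :=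
      hφ.eventually_const_lt (by norm_num)
    have hall : ∀ᶠ n : ℕ in atTop, ((1 / 2 : ℝ) < φ n) ∧
        g.eval (n : ℝ) = φ n * (g.leadingCoeff * (n : ℝ) ^ g.natDegree) ∧ (1 : ℝ) ≤ n := by
      refine (hcast.eventually h12).and ((hcast.eventually hev).and ?_)
      exact (eventually_ge_atTop 1).mono fun n hn => by exact_mod_cast hn
    rcases lt_or_gt_of_ne hne with hneg | hpos
    · exfalso
      obtain ⟨n, hn, h1, h2, h3⟩ := ((hs 0).and_eventually hall).exists
      rw [h2] at hn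
      have h4 : (0 : ℝ) < (n : ℝ) ^ g.natDegree := by positivity
      have h5 : g.leadingCoeff * (n : ℝ) ^ g.natDegree < 0 := mul_neg_of_neg_of_pos hneg h4
      have h6 : φ n * (g.leadingCoeff * (n : ℝ) ^ g.natDegree) < 0 :=
        mul_neg_of_pos_of_neg (by linarith) h5
      simp only [Nat.cast_zero, zero_mul] at hn
      linarith
    · refine ⟨g.leadingCoeff / 2, by positivity, hall.mono ?_⟩
      rintro n ⟨h1, h2, h3⟩
      rw [h2]
      have h4 : (n : ℝ) ^ 2 ≤ (n : ℝ) ^ g.natDegree := pow_le_pow_right₀ h3 hd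
      have h5 : (0 : ℝ) < (n : ℝ) ^ g.natDegree := by positivity
      have h6 : 0 < g.leadingCoeff * (n : ℝ) ^ g.natDegree := mul_pos hpos h5
      calc g.leadingCoeff / 2 * (n : ℝ) ^ 2 ≤ g.leadingCoeff / 2 * (n : ℝ) ^ g.natDegree := by
            apply mul_le_mul_of_nonneg_left h4; positivity
        _ = 1 / 2 * (g.leadingCoeff * (n : ℝ) ^ g.natDegree) := by ring
        _ ≤ φ n * (g.leadingCoeff * (n : ℝ) ^ g.natDegree) :=
            mul_le_mul_of_nonneg_right h1.le h6.le

theorem porc_dense (h : IsPORC (fun p => omega (UU 4 p))) :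
    ∃ δ : ℝ, 0 < δ ∧ ∃ p0 : ℕ, ∀ p : ℕ, p.Prime → p0 ≤ p →
      δ * (p : ℝ) ^ 2 ≤ maxPartialOvoid p := by
  obtain ⟨N, hN, F, q0, hF⟩ := h
  -- the value of the maximum partial ovoid is given by a polynomial on each residue class
  have hval : ∀ p : ℕ, p.Prime → max q0 3 ≤ p →
      (maxPartialOvoid p : ℝ) =
        (((F (p % N)).map (algebraMap ℚ ℝ)) - (X ^ 3 - X + 1)).eval (p : ℝ) := by
    intro p hp hle
    have : Fact p.Prime := ⟨hp⟩
    have hp2 : p ≠ 2 := by
      have := le_trans (le_max_right q0 3) hle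
      omega
    have h1 := hF p hp (le_trans (le_max_left _ _) hle)
    simp only [omega_UU4 hp2] at h1
    have hcube : p ≤ p ^ 3 := Nat.le_self_pow (by norm_num) p
    have h2 : ((p : ℝ) ^ 3 - p + 1 + maxPartialOvoid p) =
        ((F (p % N)).map (algebraMap ℚ ℝ)).eval (p : ℝ) := by
      have h3 : ((p : ℝ)) = algebraMap ℚ ℝ (p : ℚ) := by simp
      rw [h3, Polynomial.eval_map_algebraMap, Polynomial.aeval_algebraMap_apply]
      rw [Polynomial.coe_aeval_eq_eval, ← h1]
      push_cast [Nat.cast_sub hcube]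
      simp
    rw [Polynomial.eval_sub, ← h2]
    simp
  have key : ∀ r : ℕ, ∃ δ : ℝ, 0 < δ ∧ ∀ᶠ p : ℕ in atTop, p.Prime → p % N = r →
      δ * (p : ℝ) ^ 2 ≤ maxPartialOvoid p := by
    intro r
    by_cases hinf : ∃ᶠ p : ℕ in atTop, p.Prime ∧ p % N = r
    · set g : ℝ[X] := (((F r).map (algebraMap ℚ ℝ)) - (X ^ 3 - X + 1)) with hg
      have hquad := poly_quad g ?_
      · obtain ⟨δ, hδ, hev⟩ := hquad
        refine ⟨δ, hδ, ?_⟩
        filter_upwards [hev, eventually_ge_atTop (max q0 3)] with p h1 h2 h3 h4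
        rw [hval p h3 h2, h4]
        exact h1
      · intro K
        refine (hinf.and_eventually ((eventually_ge_atTop (max q0 3)).and
          (eventually_ge_atTop (4 * K * (2 ^ (4 * (4 * K)) + 1))))).mono ?_
        rintro p ⟨⟨h1, h2⟩, h3, h4⟩
        have : Fact p.Prime := ⟨h1⟩
        have hp2 : p ≠ 2 := by
          have := le_trans (le_max_right q0 3) h3
          omega
        have h5 := superlinear hp2 (4 * K) (by omega)
        rw [← h2] at hg
        rw [hg, ← hval p h1 h3]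
        have h6 : K * p ≤ maxPartialOvoid p := by nlinarith
        exact_mod_cast h6
    · refine ⟨1, one_pos, ?_⟩
      rw [not_frequently] at hinf
      exact hinf.mono fun p h1 h2 h3 => absurd ⟨h2, h3⟩ h1
  have hind : ∀ k : ℕ, ∃ δ : ℝ, 0 < δ ∧ ∀ᶠ p : ℕ in atTop, p.Prime → p % N < k →
      δ * (p : ℝ) ^ 2 ≤ maxPartialOvoid p := by
    intro k
    induction k with
    | zero => exact ⟨1, one_pos, Eventually.of_forall fun p _ h => absurd h (by omega)⟩
    | succ k ih =>
      obtain ⟨δ, hδ, h1⟩ := ih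
      obtain ⟨ε, hε, h2⟩ := key k
      refine ⟨min δ ε, lt_min hδ hε, ?_⟩
      filter_upwards [h1, h2] with p h3 h4 hp hlt
      have hsq : (0 : ℝ) ≤ (p : ℝ) ^ 2 := by positivity
      rcases Nat.lt_succ_iff_lt_or_eq.mp hlt with h | h
      · exact le_trans (mul_le_mul_of_nonneg_right (min_le_left _ _) hsq) (h3 hp h)
      · exact le_trans (mul_le_mul_of_nonneg_right (min_le_right _ _) hsq) (h4 hp h)
  obtain ⟨δ, hδ, hev⟩ := hind N
  obtain ⟨p0, hp0⟩ := eventually_atTop.mp hev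
  exact ⟨δ, hδ, p0, fun p hp hle => hp0 p hle hp (Nat.mod_lt p hN)⟩

end Pool.Agent.UU4
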