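import Pool.Agent.Lib.MP_fbb849_al.H83.Formula

/-!
# MP_fbb849_al: independent sets in triangle-free graphs, and partial ovoids of superlinear size
-/

set_option autoImplicit false

namespace Pool.Agent.UU4

open Finset

section Graph

variable {V : Type} [Fintype V] [DecidableEq V] (r : V → V → Prop) [DecidableRel r]

/-- neighbourhood of `v` -/
def nb (v : V) : Finset V := univ.filter fun w => r v w

/-- the independent sets -/
def ind : Finset (Finset V) := univ.filter fun W => ∀ a ∈ W, ∀ b ∈ W, ¬ r a b

omit [Fintype V] in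
theorem two_mul_sum_card (X : Finset V) : 2 * ∑ T ∈ X.powerset, T.card = X.card * 2 ^ X.card := by
  have h : ∑ T ∈ X.powerset, T.card = ∑ T ∈ X.powerset, (X \ T).card := by
    refine sum_nbij' (fun T => X \ T) (fun T => X \ T) ?_ ?_ ?_ ?_ ?_
    · intro T _; rw [mem_powerset]; exact sdiff_subset
    · intro T _; rw [mem_powerset]; exact sdiff_subset
    · intro T hT; rw [mem_powerset] at hT; exact Finset.sdiff_sdiff_eq_self hT
    · intro T hT; rw [mem_powerset] at hT; exact Finset.sdiff_sdiff_eq_self hT
    · intro T hT; rw [mem_powerset] at hT; rw [Finset.sdiff_sdiff_eq_self hT]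
  rw [two_mul]
  nth_rewrite 2 [h]
  rw [← sum_add_distrib]
  have h2 : ∀ T ∈ X.powerset, T.card + (X \ T).card = X.card := by
    intro T hT
    rw [mem_powerset] at hT
    rw [card_sdiff_of_subset hT]
    have := card_le_card hT
    omega
  rw [sum_congr rfl h2, sum_const, card_powerset, smul_eq_mul, mul_comm]

variable {r}

/-- the local inequality at `v` -/
theorem local_ineq (hsym : ∀ a b, r a b → r b a) (hirr : ∀ a, ¬ r a a)
    (htri : ∀ a b c, r a b → r a c → ¬ r b c) (D K : ℕ)
    (hDK : K * (2 ^ (4 * K) + 1) ≤ D) (v : V) :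
    K * (ind r).card ≤ ∑ W ∈ ind r, ((if v ∈ W then D else 0) + (nb r v ∩ W).card) := by
  classical
  -- the closed neighbourhood
  let N : Finset V := insert v (nb r v)
  let Hs : Finset (Finset V) := (ind r).filter fun W => Disjoint W N
  have hmaps : ∀ W ∈ ind r, W \ N ∈ Hs := by
    intro W hW
    refine mem_filter.2 ⟨mem_filter.2 ⟨mem_univ _, ?_⟩, sdiff_disjoint⟩
    intro a ha b hb
    exact (mem_filter.1 hW).2 a (mem_sdiff.1 ha).1 b (mem_sdiff.1 hb).1
  rw [← sum_fiberwise_of_maps_to hmaps, card_eq_sum_card_fiberwise hmaps, mul_sum]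
  refine sum_le_sum fun H hH => ?_
  have hHi : ∀ a ∈ H, ∀ b ∈ H, ¬ r a b := (mem_filter.1 (mem_filter.1 hH).1).2
  have hHd : Disjoint H N := (mem_filter.1 hH).2
  have hvH : v ∉ H := fun h => (disjoint_left.1 hHd) h (mem_insert_self _ _)
  have hNH : ∀ a ∈ H, a ∉ nb r v := fun a ha h =>
    (disjoint_left.1 hHd) ha (mem_insert_of_mem h)
  -- the free neighbours
  let X : Finset V := (nb r v).filter fun u => ∀ a ∈ H, ¬ r u a
  have hXv : ∀ u ∈ X, r v u := fun u hu => (mem_filter.1 (mem_filter.1 hu).1).2
  have hXH : ∀ u ∈ X, ∀ a ∈ H, ¬ r u a := fun u hu => (mem_filter.1 hu).2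
  have hXnotH : ∀ u ∈ X, u ∉ H := fun u hu h => hNH u h (mem_filter.1 hu).1
  have hvX : v ∉ X := fun h => hirr v (hXv v h)
  have hfib : (ind r).filter (fun W => W \ N = H) =
      insert (insert v H) (X.powerset.image fun T => H ∪ T) := by
    ext W
    rw [mem_filter, mem_insert, mem_image]
    constructor
    · rintro ⟨hW, hWH⟩
      have hWi : ∀ a ∈ W, ∀ b ∈ W, ¬ r a b := (mem_filter.1 hW).2
      have hHW : H ⊆ W := by rw [← hWH]; exact sdiff_subset
      by_cases hv : v ∈ W
      · left
        ext a
        rw [mem_insert]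
        constructor
        · intro ha
          by_cases hav : a = v
          · exact Or.inl hav
          · right
            rw [← hWH, mem_sdiff]
            refine ⟨ha, ?_⟩
            rw [mem_insert]
            rintro (h | h)
            · exact hav h
            · exact hWi v hv a ha (mem_filter.1 h).2
        · rintro (rfl | h)
          · exact hv
          · exact hHW h
      · right
        refine ⟨W ∩ nb r v, ?_, ?_⟩
        · rw [mem_powerset]
          intro u hu
          rw [mem_inter] at hu
          exact mem_filter.2 ⟨hu.2, fun a ha => hWi u hu.1 a (hHW ha)⟩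
        · ext a
          rw [mem_union, mem_inter, ← hWH, mem_sdiff, mem_insert]
          constructor
          · rintro (h | h)
            · exact h.1
            · exact h.1
          · intro ha
            by_cases h : a ∈ nb r v
            · exact Or.inr ⟨ha, h⟩
            · left
              refine ⟨ha, ?_⟩
              rintro (h' | h')
              · exact hv (h' ▸ ha)
              · exact h h'
    · rintro (rfl | ⟨T, hT, rfl⟩)
      · refine ⟨mem_filter.2 ⟨mem_univ _, ?_⟩, ?_⟩
        · intro a ha b hb hab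
          rw [mem_insert] at ha hb
          rcases ha with rfl | ha
          · rcases hb with rfl | hb
            · exact hirr _ hab
            · exact hNH b hb (mem_filter.2 ⟨mem_univ _, hab⟩)
          · rcases hb with rfl | hb
            · exact hNH a ha (mem_filter.2 ⟨mem_univ _, hsym _ _ hab⟩)
            · exact hHi a ha b hb hab
        · rw [insert_sdiff_of_mem _ (mem_insert_self _ _), Finset.sdiff_eq_self_iff_disjoint]
          exact hHd
      · rw [mem_powerset] at hT
        refine ⟨mem_filter.2 ⟨mem_univ _, ?_⟩, ?_⟩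
        · intro a ha b hb hab
          rw [mem_union] at ha hb
          rcases ha with ha | ha
          · rcases hb with hb | hb
            · exact hHi a ha b hb hab
            · exact hXH b (hT hb) a ha (hsym _ _ hab)
          · rcases hb with hb | hb
            · exact hXH a (hT ha) b hb hab
            · exact htri v a b (hXv a (hT ha)) (hXv b (hT hb)) hab
        · rw [union_sdiff_distrib, Finset.sdiff_eq_self_iff_disjoint.2 hHd, sdiff_eq_empty_iff_subset.2,
            union_empty]
          intro u hu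
          exact mem_insert_of_mem (mem_filter.1 (hT hu)).1
  have hnotin : insert v H ∉ X.powerset.image fun T => H ∪ T := by
    rw [mem_image]
    rintro ⟨T, hT, h⟩
    rw [mem_powerset] at hT
    have : v ∈ H ∪ T := by rw [h]; exact mem_insert_self _ _
    rcases mem_union.1 this with h' | h'
    · exact hvH h'
    · exact hvX (hT h')
  have hinj : Set.InjOn (fun T => H ∪ T) (X.powerset : Set (Finset V)) := by
    intro T hT T' hT' h
    have hT1 := mem_powerset.1 (mem_coe.1 hT)
    have hT2 := mem_powerset.1 (mem_coe.1 hT')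
    have h' : H ∪ T = H ∪ T' := h
    ext a
    constructor
    · intro ha
      have : a ∈ H ∪ T' := by rw [← h']; exact mem_union_right _ ha
      exact (mem_union.1 this).resolve_left (hXnotH a (hT1 ha))
    · intro ha
      have : a ∈ H ∪ T := by rw [h']; exact mem_union_right _ ha
      exact (mem_union.1 this).resolve_left (hXnotH a (hT2 ha))
  rw [hfib, card_insert_of_notMem hnotin, card_image_of_injOn hinj, card_powerset,
    sum_insert hnotin, sum_image hinj]
  have e1 : D ≤ (if v ∈ insert v H then D else 0) + (nb r v ∩ insert v H).card := by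
    rw [if_pos (mem_insert_self _ _)]
    exact Nat.le_add_right _ _
  have e2 : ∑ T ∈ X.powerset, T.card ≤
      ∑ T ∈ X.powerset, ((if v ∈ H ∪ T then D else 0) + (nb r v ∩ (H ∪ T)).card) := by
    refine sum_le_sum fun T hT => ?_
    rw [mem_powerset] at hT
    refine le_trans (card_le_card ?_) (Nat.le_add_left _ _)
    intro a ha
    exact mem_inter.2 ⟨(mem_filter.1 (hT ha)).1, mem_union_right _ ha⟩
  have e3 := two_mul_sum_card X
  have e4 : K * (2 ^ X.card + 1) ≤ D + ∑ T ∈ X.powerset, T.card := by
    rcases lt_or_ge X.card (4 * K) with h | h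
    · calc K * (2 ^ X.card + 1) ≤ K * (2 ^ (4 * K) + 1) := by
            apply Nat.mul_le_mul_left
            have := Nat.pow_le_pow_right (n := 2) (by norm_num) h.le
            omega
        _ ≤ D := hDK
        _ ≤ _ := Nat.le_add_right _ _
    · have h1 : 4 * K * 2 ^ X.card ≤ X.card * 2 ^ X.card := Nat.mul_le_mul_right _ h
      have h2 : 1 ≤ 2 ^ X.card := Nat.one_le_two_pow
      have h3 : K * (2 ^ X.card + 1) ≤ K * (2 ^ X.card + 2 ^ X.card) :=
        Nat.mul_le_mul_left _ (by omega)
      have h4 : K * (2 ^ X.card + 2 ^ X.card) * 2 = 4 * K * 2 ^ X.card := by ring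
      omega
  calc K * (2 ^ X.card + 1) ≤ D + ∑ T ∈ X.powerset, T.card := e4
    _ ≤ _ := add_le_add e1 e2

/-- large independent sets in sparse triangle-free graphs -/
theorem exists_indep (hsym : ∀ a b, r a b → r b a) (hirr : ∀ a, ¬ r a a)
    (htri : ∀ a b c, r a b → r a c → ¬ r b c) (D K : ℕ)
    (hDK : K * (2 ^ (4 * K) + 1) ≤ D) (hdeg : ∀ v, (nb r v).card ≤ D) :
    ∃ W : Finset V, (∀ a ∈ W, ∀ b ∈ W, ¬ r a b) ∧ K * Fintype.card V ≤ 2 * D * W.card := by
  classical
  have hne : (ind r).Nonempty := ⟨∅, mem_filter.2 ⟨mem_univ _, by simp⟩⟩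
  by_contra hcon
  push Not at hcon
  have h1 : Fintype.card V * (K * (ind r).card) ≤
      ∑ v : V, ∑ W ∈ ind r, ((if v ∈ W then D else 0) + (nb r v ∩ W).card) := by
    rw [← smul_eq_mul, ← card_univ, ← sum_const]
    exact sum_le_sum fun v _ => local_ineq hsym hirr htri D K hDK v
  rw [sum_comm] at h1
  have h2 : ∀ W ∈ ind r, ∑ v : V, ((if v ∈ W then D else 0) + (nb r v ∩ W).card) ≤
      2 * D * W.card := by
    intro W _
    rw [sum_add_distrib]
    have a1 : ∑ v : V, (if v ∈ W then D else 0) = D * W.card := by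
      rw [← sum_filter, sum_const, filter_mem_eq_inter, univ_inter, smul_eq_mul, mul_comm]
    have a2 : ∑ v : V, (nb r v ∩ W).card ≤ D * W.card := by
      have : ∀ v : V, (nb r v ∩ W).card = ∑ w ∈ W, if r v w then 1 else 0 := by
        intro v
        rw [← card_filter]
        congr 1
        ext w
        rw [mem_inter, mem_filter, nb, mem_filter]
        exact ⟨fun h => ⟨h.2, h.1.2⟩, fun h => ⟨⟨mem_univ _, h.2⟩, h.1⟩⟩
      rw [sum_congr rfl fun v _ => this v, sum_comm]
      calc ∑ w ∈ W, ∑ v : V, (if r v w then 1 else 0) ≤ ∑ w ∈ W, D := by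
            refine sum_le_sum fun w _ => ?_
            rw [← card_filter]
            refine le_trans (card_le_card ?_) (hdeg w)
            intro v hv
            exact mem_filter.2 ⟨mem_univ _, hsym _ _ (mem_filter.1 hv).2⟩
        _ = D * W.card := by rw [sum_const, smul_eq_mul, mul_comm]
    rw [a1]
    calc D * W.card + ∑ v : V, (nb r v ∩ W).card ≤ D * W.card + D * W.card :=
          Nat.add_le_add_left a2 _
      _ = 2 * D * W.card := by ring
  have h3 : ∑ W ∈ ind r, ∑ v : V, ((if v ∈ W then D else 0) + (nb r v ∩ W).card) <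
      ∑ W ∈ ind r, K * Fintype.card V := by
    refine sum_lt_sum_of_nonempty hne fun W hW => ?_
    exact lt_of_le_of_lt (h2 W hW) (hcon W (mem_filter.1 hW).2)
  rw [sum_const, smul_eq_mul] at h3
  have h4 : Fintype.card V * (K * (ind r).card) = (ind r).card * (K * Fintype.card V) := by ring
  omega

end Graph

section Quadric

variable {p : ℕ} [hp : Fact p.Prime]

/-- the elliptic quadric function -/
def qf (e : ZMod p) (w : ZMod p × ZMod p) : ZMod p := w.1 * w.1 - e * (w.2 * w.2)

/-- collinearity on the elliptic quadric -/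
def rel (e : ZMod p) (w w' : ZMod p × ZMod p) : Prop :=
  w ≠ w' ∧ qf e w' - qf e w + (w.1 * w'.2 - w.2 * w'.1) = 0

instance (e : ZMod p) : DecidableRel (rel e) := fun _ _ => by unfold rel; infer_instance

/-- the point of the quadric -/
def pt (e : ZMod p) (w : ZMod p × ZMod p) : Fin 4 → ZMod p := ![1, w.1, w.2, qf e w]

theorem symp_pt (e : ZMod p) (w w' : ZMod p × ZMod p) :
    symp (pt e w) (pt e w') = qf e w' - qf e w + (w.1 * w'.2 - w.2 * w'.1) := by
  show 1 * qf e w' - qf e w * 1 + w.1 * w'.2 - w.2 * w'.1 = _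
  ring

theorem rel_symm (e : ZMod p) (w w' : ZMod p × ZMod p) (h : rel e w w') : rel e w' w :=
  ⟨h.1.symm, by linear_combination -h.2⟩

theorem aniso {e : ZMod p} (he : ¬ IsSquare e) (a b : ZMod p) (h : a * a - e * (b * b) = 0) :
    a = 0 ∧ b = 0 := by
  by_cases hb : b = 0
  · rw [hb] at h
    have : a * a = 0 := by linear_combination h
    exact ⟨mul_self_eq_zero.1 this, hb⟩
  · exfalso
    apply he
    refine ⟨a / b, ?_⟩
    field_simp
    linear_combination -h

theorem rel_tri {e : ZMod p} (he : ¬ IsSquare e) (w1 w2 w3 : ZMod p × ZMod p)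
    (h12 : rel e w1 w2) (h13 : rel e w1 w3) : ¬ rel e w2 w3 := by
  intro h23
  obtain ⟨n12, e12⟩ := h12
  obtain ⟨n13, e13⟩ := h13
  obtain ⟨n23, e23⟩ := h23
  obtain ⟨x1, y1⟩ := w1
  obtain ⟨x2, y2⟩ := w2
  obtain ⟨x3, y3⟩ := w3
  simp only [qf] at e12 e13 e23
  obtain ⟨a, ha⟩ : ∃ a, a = x2 - x1 := ⟨_, rfl⟩
  obtain ⟨b, hb⟩ : ∃ b, b = y2 - y1 := ⟨_, rfl⟩
  obtain ⟨c, hc⟩ : ∃ c, c = x3 - x1 := ⟨_, rfl⟩
  obtain ⟨d, hd⟩ : ∃ d, d = y3 - y1 := ⟨_, rfl⟩
  have hx2 : x2 = x1 + a := by rw [ha]; ring
  have hy2 : y2 = y1 + b := by rw [hb]; ring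
  have hx3 : x3 = x1 + c := by rw [hc]; ring
  have hy3 : y3 = y1 + d := by rw [hd]; ring
  subst hx2 hy2 hx3 hy3
  have harea : a * d = b * c := by linear_combination e12 - e13 + e23
  -- the two quadratic relations
  have q1 : a * (c * c - e * (d * d)) = c * (a * a - e * (b * b)) := by
    linear_combination a * e13 - c * e12 + (2 * e * y1 - x1) * harea
  have q2 : b * (c * c - e * (d * d)) = d * (a * a - e * (b * b)) := by
    linear_combination b * e13 - d * e12 + (2 * x1 - y1) * harea
  have hQ : a * a - e * (b * b) ≠ 0 := by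
    intro h
    obtain ⟨h1, h2⟩ := aniso he a b h
    apply n12
    rw [h1, h2]
    simp
  have r1 : c * (c - a) = 0 := by
    apply mul_right_cancel₀ hQ
    have : c * c * (a * a - e * (b * b)) = a * c * (a * a - e * (b * b)) := by
      linear_combination a * q1 + e * (a * d + b * c) * harea
    linear_combination this
  have r2 : d * (d - b) = 0 := by
    apply mul_right_cancel₀ hQ
    have : d * d * (a * a - e * (b * b)) = b * d * (a * a - e * (b * b)) := by
      linear_combination b * q2 + (a * d + b * c) * harea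
    linear_combination this
  have s0 : ¬ (c = 0 ∧ d = 0) := by
    rintro ⟨h1, h2⟩
    apply n13
    rw [h1, h2]
    simp
  have s1 : ¬ (c = a ∧ d = b) := by
    rintro ⟨h1, h2⟩
    apply n23
    rw [h1, h2]
  rcases mul_eq_zero.1 r1 with h1 | h1
  · rcases mul_eq_zero.1 r2 with h2 | h2
    · exact s0 ⟨h1, h2⟩
    · have h2' : d = b := sub_eq_zero.1 h2
      have : a * b = 0 := by rw [h1, h2'] at harea; rw [harea]; ring
      rcases mul_eq_zero.1 this with h3 | h3
      · exact s1 ⟨by rw [h1, h3], h2'⟩
      · exact s0 ⟨h1, by rw [h2', h3]⟩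
  · have h1' : c = a := sub_eq_zero.1 h1
    rcases mul_eq_zero.1 r2 with h2 | h2
    · have : a * b = 0 := by rw [h1', h2] at harea; linear_combination -harea
      rcases mul_eq_zero.1 this with h3 | h3
      · exact s0 ⟨by rw [h1', h3], h2⟩
      · exact s1 ⟨h1', by rw [h2, h3]⟩
    · exact s1 ⟨h1', sub_eq_zero.1 h2⟩

theorem deg_le (e : ZMod p) (w : ZMod p × ZMod p) : (nb (rel e) w).card ≤ 2 * p := by
  have h : (nb (rel e) w).card ≤ 2 * ((nb (rel e) w).image Prod.snd).card := by
    refine card_le_mul_card_image _ 2 ?_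
    intro y' _
    rcases (((nb (rel e) w).filter fun z => z.2 = y').eq_empty_or_nonempty) with h | ⟨z, hz⟩
    · rw [h]; simp
    · have hsub : ((nb (rel e) w).filter fun z => z.2 = y') ⊆
          {z, (w.2 - z.1, y')} := by
        intro z' hz'
        have a1 := mem_filter.1 hz
        have a2 := mem_filter.1 hz'
        have b1 := (mem_filter.1 a1.1).2.2
        have b2 := (mem_filter.1 a2.1).2.2
        have c1 := a1.2
        have c2 := a2.2
        simp only [qf] at b1 b2
        rw [c1] at b1
        rw [c2] at b2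
        have : (z'.1 - z.1) * (z'.1 - (w.2 - z.1)) = 0 := by linear_combination b2 - b1
        rw [mem_insert, mem_singleton]
        rcases mul_eq_zero.1 this with h | h
        · left
          exact Prod.ext (sub_eq_zero.1 h) (by rw [c1, c2])
        · right
          exact Prod.ext (sub_eq_zero.1 h) c2
      exact le_trans (card_le_card hsub) card_le_two
  have h2 : ((nb (rel e) w).image Prod.snd).card ≤ p := by
    have := card_le_univ ((nb (rel e) w).image Prod.snd)
    rwa [ZMod.card] at this
  omega

theorem superlinear (hp2 : p ≠ 2) (K : ℕ) (hK : K * (2 ^ (4 * K) + 1) ≤ 2 * p) :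
    K * p ≤ 4 * maxPartialOvoid p := by
  obtain ⟨e, he⟩ := FiniteField.exists_nonsquare (F := ZMod p) (by rwa [ZMod.ringChar_zmod_n])
  obtain ⟨W, hW, hc⟩ := exists_indep (r := rel e) (rel_symm e) (fun a h => h.1 rfl)
    (fun a b c h1 h2 => rel_tri he a b c h1 h2) (2 * p) K hK (deg_le e)
  have hinj : Function.Injective (pt e) := by
    intro w w' h
    exact Prod.ext (congrFun h 1) (congrFun h 2)
  have hO : IsPO (W.image (pt e)) := by
    intro u hu v hv huv
    obtain ⟨w, hw, rfl⟩ := mem_image.1 hu
    obtain ⟨w', hw', rfl⟩ := mem_image.1 hv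
    rw [symp_pt]
    intro h
    exact hW w hw w' hw' ⟨fun h' => huv (by rw [h']), h⟩
  have h1 := le_maxPO hO
  rw [card_image_of_injective _ hinj] at h1
  rw [Fintype.card_prod, ZMod.card] at hc
  have hpos : 0 < p := hp.out.pos
  have h2 : p * (K * p) ≤ p * (4 * maxPartialOvoid p) := by
    calc p * (K * p) = K * (p * p) := by ring
      _ ≤ 2 * (2 * p) * W.card := hc
      _ = p * (4 * W.card) := by ring
      _ ≤ p * (4 * maxPartialOvoid p) := Nat.mul_le_mul_left _ (by omega)
  exact Nat.le_of_mul_le_mul_left h2 hpos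

end Quadric

end Pool.Agent.UU4
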